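import Pool.Agent.helper1.T1N.SpecN

/-! t1:NMX, maximal separated subsets -/

set_option autoImplicit false

open MeasureTheory Finset

namespace Pool.Agent.T1N

theorem NMX_proof : NMX_stmt := by
  classical
  intro A f
  induction A using Finset.induction_on with
  | empty => exact ⟨∅, Finset.Subset.refl _, by simp, by simp⟩
  | insert a s ha ih =>
    obtain ⟨R, hRs, hsep, hcov⟩ := ih
    by_cases h : ∃ y ∈ R, |(f a).1 - (f y).1| < 1 ∧ |(f a).2 - (f y).2| < 1
    · refine ⟨R, hRs.trans (Finset.subset_insert _ _), hsep, ?_⟩
      intro x hx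
      rcases Finset.mem_insert.1 hx with rfl | hx
      · exact h
      · exact hcov x hx
    · have h' : ∀ y ∈ R, 1 ≤ |(f a).1 - (f y).1| ∨ 1 ≤ |(f a).2 - (f y).2| := by
        intro y hy
        by_contra hne
        rw [not_or, not_le, not_le] at hne
        exact h ⟨y, hy, hne⟩
      refine ⟨insert a R, Finset.insert_subset_insert a hRs, ?_, ?_⟩
      · intro x hx y hy hxy
        rcases Finset.mem_insert.1 hx with hxa | hxR
        · rcases Finset.mem_insert.1 hy with hya | hyR
          · exact absurd (hxa.trans hya.symm) hxy
          · rw [hxa]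
            exact h' y hyR
        · rcases Finset.mem_insert.1 hy with hya | hyR
          · have h1 := h' x hxR
            rw [hya, abs_sub_comm, abs_sub_comm (f x).2]
            exact h1
          · exact hsep x hxR y hyR hxy
      · intro x hx
        rcases Finset.mem_insert.1 hx with rfl | hx
        · refine ⟨x, Finset.mem_insert_self _ _, ?_, ?_⟩ <;> simp
        · obtain ⟨y, hy, h1⟩ := hcov x hx
          exact ⟨y, Finset.mem_insert_of_mem hy, h1⟩

end Pool.Agent.T1N
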